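import Pool.Agent.Helper39.FT.Defs

/-!
# `S_MAS`
-/

set_option autoImplicit false

open Polynomial UniqueFactorizationMonoid

namespace Pool.Agent.Helper4.FTM

theorem cnt {E : Type} [Field E] [DecidableEq E] (W A : E[X])
    (h : ∀ b ∈ W.roots.toFinset, b ∉ A.roots.toFinset → 4 ≤ W.rootMultiplicity b) :
    4 * W.roots.toFinset.card ≤ 4 * (W.roots.toFinset ∩ A.roots.toFinset).card + W.natDegree := by
  classical
  have h1 : W.roots.toFinset.card = (W.roots.toFinset ∩ A.roots.toFinset).card +
      (W.roots.toFinset \ A.roots.toFinset).card := (Finset.card_inter_add_card_sdiff _ _).symm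
  have h2 : 4 * (W.roots.toFinset \ A.roots.toFinset).card ≤ W.natDegree := by
    calc 4 * (W.roots.toFinset \ A.roots.toFinset).card
        = ∑ b ∈ W.roots.toFinset \ A.roots.toFinset, 4 := by
          rw [Finset.sum_const, smul_eq_mul, mul_comm]
      _ ≤ ∑ b ∈ W.roots.toFinset \ A.roots.toFinset, W.roots.count b := by
          refine Finset.sum_le_sum fun b hb => ?_
          rw [Finset.mem_sdiff] at hb
          rw [count_roots]
          exact h b hb.1 hb.2
      _ ≤ ∑ b ∈ W.roots.toFinset, W.roots.count b :=
          Finset.sum_le_sum_of_subset Finset.sdiff_subset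
      _ = W.roots.card := Multiset.toFinset_sum_count_eq _
      _ ≤ W.natDegree := card_roots' W
  omega

theorem radical_le {E : Type} [Field E] [IsAlgClosed E] [DecidableEq E] (W : E[X]) (hW : W ≠ 0) :
    (radical W).natDegree ≤ W.roots.toFinset.card := by
  have hs : (radical W).Splits := IsAlgClosed.splits _
  rw [hs.natDegree_eq_card_roots]
  have hnd : (radical W).roots.Nodup := by
    refine nodup_roots ?_
    exact (PerfectField.separable_iff_squarefree).2 squarefree_radical
  rw [← Multiset.toFinset_card_of_nodup hnd]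
  apply Finset.card_le_card
  intro b hb
  rw [Multiset.mem_toFinset] at hb ⊢
  exact Multiset.subset_of_le (roots.le_of_dvd hW radical_dvd_self) hb

theorem mason {E : Type} [Field E] [IsAlgClosed E] (U V A H : E[X]) (huv : IsCoprime U V)
    (hw : derivative U * V - U * derivative V ≠ 0) (hA : A ≠ 0) (hH : H ≠ 0)
    (h1 : ∀ b : E, (4 : ℤ) ∣ (U.rootMultiplicity b : ℤ) - V.rootMultiplicity b -
      A.rootMultiplicity b)
    (h2 : ∀ b : E, (4 : ℤ) ∣ ((U - V).rootMultiplicity b : ℤ) - V.rootMultiplicity b -
      H.rootMultiplicity b) :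
    U.natDegree ≤ 4 * (A.natDegree + H.natDegree) ∧ V.natDegree ≤ 4 * (A.natDegree + H.natDegree) := by
  classical
  have hU0 : U ≠ 0 := by
    rintro rfl
    simp at hw
  have hV0 : V ≠ 0 := by
    rintro rfl
    simp at hw
  have hUV0 : V - U ≠ 0 := by
    intro h
    have : V = U := sub_eq_zero.1 h
    subst this
    apply hw
    ring
  have hUV0' : U - V ≠ 0 := by
    rw [← neg_sub, neg_ne_zero]
    exact hUV0
  have habc := Polynomial.abc (a := U) (b := -V) (c := V - U) hU0 (neg_ne_zero.2 hV0) hUV0
    huv.neg_right (by ring)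
  have hnd : ¬ (derivative U = 0 ∧ derivative (-V) = 0 ∧ derivative (V - U) = 0) := by
    rintro ⟨d1, d2, -⟩
    rw [derivative_neg, neg_eq_zero] at d2
    apply hw
    rw [d1, d2]
    ring
  have hd := habc.resolve_right hnd
  have hrad : (radical (U * -V * (V - U))).natDegree ≤
      U.roots.toFinset.card + V.roots.toFinset.card + (U - V).roots.toFinset.card := by
    refine (radical_le _ (mul_ne_zero (mul_ne_zero hU0 (neg_ne_zero.2 hV0)) hUV0)).trans ?_
    have e1 : (U * -V * (V - U)).roots = U.roots + V.roots + (U - V).roots := by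
      have : U * -V * (V - U) = U * V * (U - V) := by ring
      rw [this, roots_mul (mul_ne_zero (mul_ne_zero hU0 hV0) hUV0'),
        roots_mul (mul_ne_zero hU0 hV0)]
    rw [e1, Multiset.toFinset_add, Multiset.toFinset_add]
    exact (Finset.card_union_le _ _).trans (Nat.add_le_add_right (Finset.card_union_le _ _) _)
  -- common roots
  have hcop : ∀ b : E, ¬ (U.eval b = 0 ∧ V.eval b = 0) := by
    rintro b ⟨e1, e2⟩
    obtain ⟨x, y, hxy⟩ := huv
    have := congrArg (eval b) hxy
    rw [eval_add, eval_mul, eval_mul, e1, e2, mul_zero, mul_zero, add_zero, eval_one] at this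
    exact zero_ne_one this
  have mz : ∀ (W : E[X]) (b : E), W.eval b ≠ 0 → W.rootMultiplicity b = 0 := by
    intro W b hb
    exact rootMultiplicity_eq_zero hb
  have mp : ∀ (W : E[X]) (b : E), b ∈ W.roots.toFinset → 0 < W.rootMultiplicity b ∧ W.eval b = 0 := by
    intro W b hb
    rw [Multiset.mem_toFinset] at hb
    have h0 : W ≠ 0 := by
      rintro rfl
      simp at hb
    exact ⟨by rw [← count_roots]; exact Multiset.count_pos.2 hb, (mem_roots h0).1 hb⟩
  have mn : ∀ (W : E[X]) (b : E), b ∉ W.roots.toFinset → W.rootMultiplicity b = 0 := by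
    intro W b hb
    rw [Multiset.mem_toFinset] at hb
    rw [← count_roots]
    exact Multiset.count_eq_zero.2 hb
  have cU := cnt U A (by
    intro b hb hbA
    have h3 := mp U b hb
    have h4 : V.rootMultiplicity b = 0 := mz V b fun h => hcop b ⟨h3.2, h⟩
    have h5 := h1 b
    rw [h4, mn A b hbA] at h5
    have := h3.1
    omega)
  have cV := cnt V A (by
    intro b hb hbA
    have h3 := mp V b hb
    have h4 : U.rootMultiplicity b = 0 := mz U b fun h => hcop b ⟨h, h3.2⟩
    have h5 := h1 b
    rw [h4, mn A b hbA] at h5
    have := h3.1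
    omega)
  have cW := cnt (U - V) H (by
    intro b hb hbH
    have h3 := mp (U - V) b hb
    have h4 : V.rootMultiplicity b = 0 := mz V b fun h => hcop b ⟨by
      have := h3.2
      rw [eval_sub, h, sub_zero] at this
      exact this, h⟩
    have h5 := h2 b
    rw [h4, mn H b hbH] at h5
    have := h3.1
    omega)
  have dA : (U.roots.toFinset ∩ A.roots.toFinset).card + (V.roots.toFinset ∩ A.roots.toFinset).card ≤
      A.natDegree := by
    have hdis : Disjoint (U.roots.toFinset ∩ A.roots.toFinset)
        (V.roots.toFinset ∩ A.roots.toFinset) := by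
      rw [Finset.disjoint_left]
      intro b hb hb'
      exact hcop b ⟨(mp U b (Finset.mem_inter.1 hb).1).2, (mp V b (Finset.mem_inter.1 hb').1).2⟩
    rw [← Finset.card_union_of_disjoint hdis]
    refine (Finset.card_le_card (t := A.roots.toFinset) ?_).trans
      ((Multiset.toFinset_card_le _).trans (card_roots' A))
    intro b hb
    rcases Finset.mem_union.1 hb with h | h
    · exact (Finset.mem_inter.1 h).2
    · exact (Finset.mem_inter.1 h).2
  have dH : ((U - V).roots.toFinset ∩ H.roots.toFinset).card ≤ H.natDegree :=
    (Finset.card_le_card Finset.inter_subset_right).trans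
      ((Multiset.toFinset_card_le _).trans (card_roots' H))
  have dV : (-V).natDegree = V.natDegree := natDegree_neg V
  have dVU : (V - U).natDegree = (U - V).natDegree := by
    rw [← neg_sub, natDegree_neg]
  rw [dV, dVU] at hd
  obtain ⟨d1, d2, d3⟩ := hd
  have dm : (U - V).natDegree ≤ max U.natDegree V.natDegree := natDegree_sub_le _ _
  rcases max_choice U.natDegree V.natDegree with hm | hm
  · have := le_max_right U.natDegree V.natDegree
    omega
  · have := le_max_left U.natDegree V.natDegree
    omega

theorem main : Pool.Agent.Helper39.FT.S_MAS := by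
  intro k _ E _ _ _ U V A H huv hw hA hH h1 h2
  have hinj : Function.Injective (algebraMap k E) := (algebraMap k E).injective
  have := mason (U.map (algebraMap k E)) (V.map (algebraMap k E)) (A.map (algebraMap k E))
    (H.map (algebraMap k E)) (huv.map (mapRingHom (algebraMap k E))) (by
      rw [derivative_map, derivative_map, ← Polynomial.map_mul, ← Polynomial.map_mul,
        ← Polynomial.map_sub]
      exact (Polynomial.map_ne_zero_iff hinj).2 hw)
    ((Polynomial.map_ne_zero_iff hinj).2 hA) ((Polynomial.map_ne_zero_iff hinj).2 hH) h1 (by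
      intro b
      have := h2 b
      rwa [Polynomial.map_sub] at this)
  rw [natDegree_map, natDegree_map, natDegree_map, natDegree_map] at this
  exact this

end Pool.Agent.Helper4.FTM
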