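import Pool.Agent.Helper39.FT.Defs

/-!
# `S_NRM`
-/

set_option autoImplicit false
set_option linter.style.haveILetI false

open Polynomial

namespace Pool.Agent.Helper4.FT

/-- The norm of `b - root`. -/
theorem norm_sub {F : Type} [Field F] (h : F[X]) (hm : h.Monic) (b : F) [Fact (Irreducible h)] :
    Algebra.norm F (algebraMap F (AdjoinRoot h) b - AdjoinRoot.root h) = h.eval b := by
  classical
  let pb := AdjoinRoot.powerBasis hm.ne_zero
  have hg : pb.gen = AdjoinRoot.root h := AdjoinRoot.powerBasis_gen hm.ne_zero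
  rw [Algebra.norm_eq_matrix_det pb.basis, map_sub, ← hg]
  have h1 : (Algebra.leftMulMatrix pb.basis pb.gen).charpoly = h := by
    rw [charpoly_leftMulMatrix]
    exact AdjoinRoot.minpoly_powerBasis_gen_of_monic hm
  conv_rhs => rw [← h1]
  rw [Matrix.eval_charpoly]
  congr 2
  rw [AlgHom.commutes]
  rfl

theorem norm_sub' {F : Type} [Field F] (h : F[X]) (hm : h.Monic) (b : F) [Fact (Irreducible h)] :
    Algebra.norm F (AdjoinRoot.root h - algebraMap F (AdjoinRoot h) b) =
      (-1) ^ h.natDegree * h.eval b := by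
  have h1 : AdjoinRoot.root h - algebraMap F (AdjoinRoot h) b =
      algebraMap F (AdjoinRoot h) (-1) * (algebraMap F (AdjoinRoot h) b - AdjoinRoot.root h) := by
    rw [map_neg, map_one]; ring
  rw [h1, map_mul, norm_sub h hm, Algebra.norm_algebraMap]
  congr 2
  have := (AdjoinRoot.powerBasis hm.ne_zero).finrank
  rw [this, AdjoinRoot.powerBasis_dim]

/-- The value attached to the polynomials `c ∏ (X - r)` and `h`. -/
noncomputable def Ph {F : Type} [Field F] (c : F) (R : Multiset F) (h : F[X]) : F :=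
  c ^ h.natDegree * (R.map fun r => (-1) ^ h.natDegree * h.eval r).prod

theorem Ph_mul {F : Type} [Field F] (c : F) (R : Multiset F) (h g : F[X]) (hh : h.Monic)
    (hg : g.Monic) : Ph c R (h * g) = Ph c R h * Ph c R g := by
  unfold Ph
  rw [hh.natDegree_mul hg, pow_add, mul_mul_mul_comm, ← Multiset.prod_map_mul]
  congr 3
  funext r
  rw [eval_mul]
  ring

theorem Ph_one {F : Type} [Field F] (c : F) (R : Multiset F) : Ph c R 1 = 1 := by
  unfold Ph
  simp

theorem norm_eval {F : Type} [Field F] (h : F[X]) (hm : h.Monic) [Fact (Irreducible h)]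
    (P : F[X]) (c : F) (R : Multiset F) (hP : P = C c * (R.map fun r => X - C r).prod) :
    Algebra.norm F (aeval (AdjoinRoot.root h) P) = Ph c R h := by
  have hfr : Module.finrank F (AdjoinRoot h) = h.natDegree := by
    rw [(AdjoinRoot.powerBasis hm.ne_zero).finrank, AdjoinRoot.powerBasis_dim]
  rw [hP, map_mul, aeval_C, map_mul, Algebra.norm_algebraMap, hfr]
  unfold Ph
  congr 1
  rw [map_multiset_prod, Multiset.map_map, map_multiset_prod, Multiset.map_map]
  congr 1
  apply Multiset.map_congr rfl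
  intro r _
  simp only [Function.comp_apply, map_sub, aeval_X, aeval_C]
  exact norm_sub' h hm r

theorem Ph_ne_zero {F : Type} [Field F] (c : F) (R : Multiset F) (h : F[X]) (hc : c ≠ 0)
    (hR : ∀ r ∈ R, h.eval r ≠ 0) : Ph c R h ≠ 0 := by
  unfold Ph
  refine mul_ne_zero (pow_ne_zero _ hc) ?_
  rw [Ne, Multiset.prod_eq_zero_iff, Multiset.mem_map]
  rintro ⟨r, hr, h0⟩
  exact mul_ne_zero (pow_ne_zero _ (neg_ne_zero.2 one_ne_zero)) (hR r hr) h0

/-- The hypothesis on the values. -/
def Hyp (p N : ℕ) [Fact p.Prime] (P Q S : (ZMod p)[X]) : Prop :=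
  ∀ m : ℕ, 0 < m → ∀ a : AlgebraicClosure (ZMod p), a ^ p ^ m = a → aeval a S ≠ 0 →
    ∃ g : AlgebraicClosure (ZMod p), g ^ p ^ m = g ∧ aeval a P = aeval a Q * g ^ N

theorem irr {p N n : ℕ} [Fact p.Prime] (hn : 0 < n) {F : Type} [Field F] [Finite F]
    [Algebra (ZMod p) F] (ι : F →ₐ[ZMod p] AlgebraicClosure (ZMod p)) (hcard : Nat.card F = p ^ n)
    (hNq : N ∣ p ^ n - 1) (P Q S : (ZMod p)[X]) (hyp : Hyp p N P Q S)
    (cP cQ cS : F) (RP RQ RS : Multiset F)
    (hP : P.map (algebraMap (ZMod p) F) = C cP * (RP.map fun r => X - C r).prod)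
    (hQ : Q.map (algebraMap (ZMod p) F) = C cQ * (RQ.map fun r => X - C r).prod)
    (hS : S.map (algebraMap (ZMod p) F) = C cS * (RS.map fun r => X - C r).prod)
    (hcP : cP ≠ 0) (hcS : cS ≠ 0)
    (h : F[X]) (hm : h.Monic) (hi : Irreducible h) (hRP : ∀ r ∈ RP, h.eval r ≠ 0)
    (hRS : ∀ r ∈ RS, h.eval r ≠ 0) :
    (Ph cP RP h) ^ ((p ^ n - 1) / N) = (Ph cQ RQ h) ^ ((p ^ n - 1) / N) := by
  classical
  have : Fact (Irreducible h) := ⟨hi⟩
  have : Fintype F := Fintype.ofFinite F
  have hfin : Module.Finite F (AdjoinRoot h) := (AdjoinRoot.powerBasis hm.ne_zero).finite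
  have : Finite (AdjoinRoot h) := Module.finite_of_finite F
  have : Fintype (AdjoinRoot h) := Fintype.ofFinite _
  have hfr : Module.finrank F (AdjoinRoot h) = h.natDegree := by
    rw [(AdjoinRoot.powerBasis hm.ne_zero).finrank, AdjoinRoot.powerBasis_dim]
  set d := h.natDegree with hd
  have hd0 : 0 < d := hi.natDegree_pos
  have hcardK : Nat.card (AdjoinRoot h) = p ^ (n * d) := by
    rw [Module.natCard_eq_pow_finrank (K := F), hcard, hfr, ← pow_mul]
  -- the root in the algebraic closure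
  obtain ⟨a, ha⟩ : ∃ a : AlgebraicClosure (ZMod p), eval₂ (ι : F →+* AlgebraicClosure (ZMod p)) a h = 0 := by
    have h1 : (h.map (ι : F →+* AlgebraicClosure (ZMod p))).degree ≠ 0 := by
      rw [degree_map]
      exact (degree_pos_of_irreducible hi).ne'
    obtain ⟨a, ha⟩ := IsAlgClosed.exists_root _ h1
    refine ⟨a, ?_⟩
    rw [IsRoot, eval_map] at ha
    exact ha
  let j : AdjoinRoot h →+* AlgebraicClosure (ZMod p) := AdjoinRoot.lift ι a ha
  have hja : j (AdjoinRoot.root h) = a := AdjoinRoot.lift_root ha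
  have hjc : j.comp (algebraMap F (AdjoinRoot h)) = (ι : F →+* AlgebraicClosure (ZMod p)) := by
    ext x
    exact AdjoinRoot.lift_of ha
  have hjP : ∀ P : (ZMod p)[X], j (aeval (AdjoinRoot.root h) (P.map (algebraMap (ZMod p) F))) =
      aeval a P := by
    intro P
    rw [aeval_def, hom_eval₂, hjc, hja, eval₂_map, aeval_def]
    congr 1
    exact ι.comp_algebraMap
  have hroot : ∀ x : AdjoinRoot h, x ^ p ^ (n * d) = x := by
    intro x
    have := FiniteField.pow_card x
    rwa [← Nat.card_eq_fintype_card, hcardK] at this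
  have haa : a ^ p ^ (n * d) = a := by
    rw [← hja, ← map_pow, hroot]
  have hS0 : aeval a S ≠ 0 := by
    rw [← hjP S]
    rw [Ne, map_eq_zero]
    intro h0
    have := norm_eval h hm _ cS RS hS
    rw [h0, Algebra.norm_zero] at this
    exact Ph_ne_zero cS RS h hcS hRS this.symm
  have hP0 : aeval a P ≠ 0 := by
    rw [← hjP P]
    rw [Ne, map_eq_zero]
    intro h0
    have := norm_eval h hm _ cP RP hP
    rw [h0, Algebra.norm_zero] at this
    exact Ph_ne_zero cP RP h hcP hRP this.symm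
  obtain ⟨g, hg1, hg2⟩ := hyp (n * d) (Nat.mul_pos hn hd0) a haa hS0
  have hp1 : 1 < p := (Fact.out : p.Prime).one_lt
  have hq1 : 1 ≤ p ^ (n * d) := Nat.one_le_pow _ _ (by omega)
  have hg0 : g ≠ 0 ∨ N = 0 := by
    by_contra hcon
    push Not at hcon
    rw [hcon.1, zero_pow hcon.2, mul_zero] at hg2
    exact hP0 hg2
  have hN0 : N ≠ 0 := by
    rintro rfl
    have h2 : p ^ n - 1 = 0 := Nat.eq_zero_of_zero_dvd hNq
    have h3 : 1 < p ^ n := Nat.one_lt_pow (by omega) hp1
    omega
  have hg0' : g ≠ 0 := hg0.resolve_right hN0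
  have hgp : g ^ (p ^ (n * d) - 1) = 1 := by
    have h2 : g * g ^ (p ^ (n * d) - 1) = g * 1 := by
      rw [← pow_succ', Nat.sub_add_cancel hq1, hg1, mul_one]
    exact mul_left_cancel₀ hg0' h2
  have hdv : p ^ n - 1 ∣ p ^ (n * d) - 1 := by
    rw [pow_mul]
    exact Nat.sub_one_dvd_pow_sub_one _ _
  -- the exponents
  have key : (aeval (AdjoinRoot.root h) (P.map (algebraMap (ZMod p) F))) ^ ((p ^ (n * d) - 1) / N) =
      (aeval (AdjoinRoot.root h) (Q.map (algebraMap (ZMod p) F))) ^ ((p ^ (n * d) - 1) / N) := by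
    apply j.injective
    rw [map_pow, map_pow, hjP, hjP, hg2, mul_pow, ← pow_mul, Nat.mul_div_cancel' (hNq.trans hdv),
      hgp, mul_one]
  have hexp : (p ^ (n * d) - 1) / (p ^ n - 1) * ((p ^ n - 1) / N) = (p ^ (n * d) - 1) / N := by
    have hB : 0 < p ^ n - 1 := by
      have h3 : 1 < p ^ n := Nat.one_lt_pow (by omega) hp1
      omega
    obtain ⟨x, hx⟩ := hdv
    obtain ⟨y, hy⟩ := hNq
    rw [hx, Nat.mul_div_cancel_left _ hB, hy, Nat.mul_div_cancel_left _ (Nat.pos_of_ne_zero hN0),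
      mul_assoc, Nat.mul_div_cancel_left _ (Nat.pos_of_ne_zero hN0), mul_comm]
  have hnorm : ∀ x : AdjoinRoot h, algebraMap F (AdjoinRoot h)
      ((Algebra.norm F x) ^ ((p ^ n - 1) / N)) = x ^ ((p ^ (n * d) - 1) / N) := by
    intro x
    rw [map_pow, FiniteField.algebraMap_norm_eq_pow, ← pow_mul, hcardK, hcard, hexp]
  apply (algebraMap F (AdjoinRoot h)).injective
  rw [← norm_eval h hm _ cP RP hP, ← norm_eval h hm _ cQ RQ hQ, hnorm, hnorm, key]

theorem all {p N n : ℕ} [Fact p.Prime] (hn : 0 < n) {F : Type} [Field F] [Finite F]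
    [Algebra (ZMod p) F] (ι : F →ₐ[ZMod p] AlgebraicClosure (ZMod p)) (hcard : Nat.card F = p ^ n)
    (hNq : N ∣ p ^ n - 1) (P Q S : (ZMod p)[X]) (hyp : Hyp p N P Q S)
    (cP cQ cS : F) (RP RQ RS : Multiset F)
    (hP : P.map (algebraMap (ZMod p) F) = C cP * (RP.map fun r => X - C r).prod)
    (hQ : Q.map (algebraMap (ZMod p) F) = C cQ * (RQ.map fun r => X - C r).prod)
    (hS : S.map (algebraMap (ZMod p) F) = C cS * (RS.map fun r => X - C r).prod)
    (hcP : cP ≠ 0) (hcS : cS ≠ 0) :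
    ∀ (k : ℕ) (h : F[X]), h.natDegree ≤ k → h.Monic → (∀ r ∈ RP, h.eval r ≠ 0) →
    (∀ r ∈ RS, h.eval r ≠ 0) →
    (Ph cP RP h) ^ ((p ^ n - 1) / N) = (Ph cQ RQ h) ^ ((p ^ n - 1) / N) := by
  intro k
  induction k with
  | zero =>
    intro h hk hm _ _
    have h1 : h = 1 := eq_one_of_monic_natDegree_zero hm (by omega)
    rw [h1, Ph_one, Ph_one]
  | succ k ih =>
    intro h hk hm h1 h2
    by_cases hu : h = 1
    · rw [hu, Ph_one, Ph_one]
    have hnu : ¬ IsUnit h := fun hu' => hu (hm.isUnit_iff.1 hu')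
    obtain ⟨g, hgm, hgi, hgd⟩ := exists_monic_irreducible_factor h hnu
    obtain ⟨h', rfl⟩ := hgd
    have hm' : h'.Monic := hgm.of_mul_monic_left hm
    have hdeg : 0 < g.natDegree := hgi.natDegree_pos
    have h3 : (g * h').natDegree = g.natDegree + h'.natDegree := hgm.natDegree_mul hm'
    have e1 : ∀ r, (g * h').eval r ≠ 0 → g.eval r ≠ 0 ∧ h'.eval r ≠ 0 := by
      intro r hr
      rw [eval_mul] at hr
      exact ⟨left_ne_zero_of_mul hr, right_ne_zero_of_mul hr⟩
    rw [Ph_mul _ _ _ _ hgm hm', Ph_mul _ _ _ _ hgm hm', mul_pow, mul_pow,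
      irr hn ι hcard hNq P Q S hyp cP cQ cS RP RQ RS hP hQ hS hcP hcS g hgm hgi
        (fun r hr => (e1 r (h1 r hr)).1) (fun r hr => (e1 r (h2 r hr)).1),
      ih h' (by omega) hm' (fun r hr => (e1 r (h1 r hr)).2) (fun r hr => (e1 r (h2 r hr)).2)]

/-- Two monic polynomials of the same degree. -/
theorem two {F : Type} [Field F] [DecidableEq F] (B : Finset F) (b γ : F) (hb : b ∈ B) :
    ∃ h1 h2 : F[X], h1.Monic ∧ h2.Monic ∧ h1.natDegree = h2.natDegree ∧ h1.eval b = γ ∧
      (∀ r ∈ B, h2.eval r = 1) ∧ ∀ r ∈ B, r ≠ b → h1.eval r = 1 := by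
  classical
  let V : F[X] := ∏ r ∈ B, (X - C r)
  let W : F[X] := ∏ r ∈ B.erase b, (X - C r)
  have hV : V.Monic := monic_prod_of_monic _ _ fun r _ => monic_X_sub_C r
  have hVd : V.natDegree = B.card := by
    rw [natDegree_prod_of_monic _ _ fun r _ => monic_X_sub_C r]
    simp
  have hWd : W.natDegree < B.card := by
    rw [natDegree_prod_of_monic _ _ fun r _ => monic_X_sub_C r]
    simp only [natDegree_X_sub_C, Finset.sum_const, smul_eq_mul, mul_one]
    exact Finset.card_erase_lt_of_mem hb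
  have hVr : ∀ r ∈ B, V.eval r = 0 := by
    intro r hr
    rw [eval_prod]
    exact Finset.prod_eq_zero hr (by simp)
  have hWr : ∀ r ∈ B, r ≠ b → W.eval r = 0 := by
    intro r hr hrb
    rw [eval_prod]
    exact Finset.prod_eq_zero (Finset.mem_erase.2 ⟨hrb, hr⟩) (by simp)
  have hWb : W.eval b ≠ 0 := by
    rw [eval_prod, Finset.prod_ne_zero_iff]
    intro r hr
    rw [eval_sub, eval_X, eval_C, sub_ne_zero]
    exact (Finset.ne_of_mem_erase hr).symm
  have hXV : (X * V).Monic := monic_X.mul hV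
  have hXVd : (X * V).natDegree = B.card + 1 := by
    rw [monic_X.natDegree_mul hV, natDegree_X, hVd, add_comm]
  have hB : 0 < B.card := Finset.card_pos.2 ⟨b, hb⟩
  have low : ∀ w : F[X], w.natDegree ≤ B.card → (X * V + w).Monic ∧
      (X * V + w).natDegree = B.card + 1 := by
    intro w hw
    have hlt : w.natDegree < (X * V).natDegree := by omega
    have hlt' : w.degree < (X * V).degree := degree_lt_degree hlt
    exact ⟨hXV.add_of_left hlt', by rw [natDegree_add_eq_left_of_natDegree_lt hlt, hXVd]⟩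
  have l1 := low (1 + C ((γ - 1) / W.eval b) * W) (by
    refine (natDegree_add_le _ _).trans (max_le (by simp) ?_)
    refine (natDegree_C_mul_le _ _).trans hWd.le)
  have l2 := low 1 (by simp)
  refine ⟨_, _, l1.1, l2.1, by rw [l1.2, l2.2], ?_, ?_, ?_⟩
  · rw [eval_add, eval_mul, hVr b hb, eval_add, eval_mul, eval_one, eval_C, mul_zero, zero_add,
      div_mul_cancel₀ _ hWb]
    ring
  · intro r hr
    rw [eval_add, eval_mul, hVr r hr, eval_one]
    ring
  · intro r hr hrb
    rw [eval_add, eval_mul, hVr r hr, eval_add, eval_mul, hWr r hr hrb, eval_one]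
    ring

theorem exists_n {p N : ℕ} [Fact p.Prime] (hN : 0 < N) (hpN : ¬ p ∣ N)
    (B : Finset (AlgebraicClosure (ZMod p))) :
    ∃ n : ℕ, 0 < n ∧ N ∣ p ^ n - 1 ∧ ∀ x ∈ B, x ^ p ^ n = x := by
  classical
  let K := IntermediateField.adjoin (ZMod p) (B : Set (AlgebraicClosure (ZMod p)))
  have hint : ∀ x ∈ (B : Set (AlgebraicClosure (ZMod p))), IsIntegral (ZMod p) x :=
    fun x _ => Algebra.IsIntegral.isIntegral x
  have hfd : FiniteDimensional (ZMod p) K :=
    IntermediateField.finiteDimensional_adjoin hint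
  have hfin : Finite K := Module.finite_of_finite (ZMod p)
  have hft : Fintype K := Fintype.ofFinite K
  have hcard : Nat.card K = p ^ Module.finrank (ZMod p) K := by
    rw [Module.natCard_eq_pow_finrank (K := ZMod p), Nat.card_zmod]
  set k := Module.finrank (ZMod p) K with hk
  have hk0 : 0 < k := Module.finrank_pos
  have hx : ∀ x ∈ B, x ^ p ^ k = x := by
    intro x hxB
    have hxK : x ∈ K := IntermediateField.subset_adjoin _ _ hxB
    have := FiniteField.pow_card (⟨x, hxK⟩ : K)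
    rw [← Nat.card_eq_fintype_card, hcard] at this
    exact congrArg Subtype.val this
  have hpr : p.Prime := Fact.out
  have hcop : Nat.Coprime p N := (Nat.Prime.coprime_iff_not_dvd hpr).2 hpN
  refine ⟨k * N.totient, Nat.mul_pos hk0 (Nat.totient_pos.2 hN), ?_, ?_⟩
  · have h1 : p ^ (k * N.totient) ≡ 1 [MOD N] := by
      have := (Nat.ModEq.pow_totient hcop).pow k
      rwa [← pow_mul, one_pow, mul_comm] at this
    exact (Nat.modEq_iff_dvd' (Nat.one_le_pow _ _ hpr.pos)).1 h1.symm
  · intro x hxB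
    have h2 := hx x hxB
    rw [pow_mul]
    generalize N.totient = t
    induction t with
    | zero => simp
    | succ t ih =>
      rw [pow_succ, pow_mul, ih, h2]

theorem mem_range {p n : ℕ} [Fact p.Prime] (hn : 0 < n) {F : Type} [Field F] [Finite F]
    (ι : F →+* AlgebraicClosure (ZMod p)) (hcard : Nat.card F = p ^ n)
    (x : AlgebraicClosure (ZMod p)) (hx : x ^ p ^ n = x) : ∃ y, ι y = x := by
  classical
  have hft : Fintype F := Fintype.ofFinite F
  have hp1 : 1 < p := (Fact.out : p.Prime).one_lt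
  let R := ((X ^ (p ^ n) - X : (AlgebraicClosure (ZMod p))[X])).roots.toFinset
  have hne : (X ^ (p ^ n) - X : (AlgebraicClosure (ZMod p))[X]) ≠ 0 :=
    FiniteField.X_pow_card_pow_sub_X_ne_zero _ hn.ne' hp1
  have hmem : ∀ y, y ∈ R ↔ y ^ p ^ n = y := by
    intro y
    rw [Multiset.mem_toFinset, mem_roots hne, IsRoot, eval_sub, eval_pow, eval_X, sub_eq_zero]
  have hR : R.card ≤ p ^ n := by
    refine (Multiset.toFinset_card_le _).trans ((card_roots' _).trans ?_)
    rw [FiniteField.X_pow_card_pow_sub_X_natDegree_eq _ hn.ne' hp1]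
  have himg : Finset.univ.image ι ⊆ R := by
    intro y hy
    obtain ⟨z, -, rfl⟩ := Finset.mem_image.1 hy
    rw [hmem, ← map_pow]
    have := FiniteField.pow_card z
    rw [← Nat.card_eq_fintype_card, hcard] at this
    rw [this]
  have hc : (Finset.univ.image ι).card = p ^ n := by
    rw [Finset.card_image_of_injective _ ι.injective, Finset.card_univ,
      ← Nat.card_eq_fintype_card, hcard]
  have heq : Finset.univ.image ι = R := Finset.eq_of_subset_of_card_le himg (by rw [hc]; exact hR)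
  have : x ∈ Finset.univ.image ι := by
    rw [heq, hmem]
    exact hx
  obtain ⟨y, -, hy⟩ := Finset.mem_image.1 this
  exact ⟨y, hy⟩

theorem split {p : ℕ} [Fact p.Prime] {F : Type} [Field F] [DecidableEq F]
    [Algebra (ZMod p) F] (ι : F →ₐ[ZMod p] AlgebraicClosure (ZMod p)) (P : (ZMod p)[X])
    (hr : ∀ x ∈ (P.map (algebraMap (ZMod p) (AlgebraicClosure (ZMod p)))).roots, ∃ y, ι y = x) :
    ∃ R : Multiset F, P.map (algebraMap (ZMod p) F) =
        C (algebraMap (ZMod p) F P.leadingCoeff) * (R.map fun r => X - C r).prod ∧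
      ∀ b : F, R.count b =
        (P.map (algebraMap (ZMod p) (AlgebraicClosure (ZMod p)))).rootMultiplicity (ι b) := by
  classical
  set M := (P.map (algebraMap (ZMod p) (AlgebraicClosure (ZMod p)))).roots with hM
  have hexR : ∃ R : Multiset F, R.map ι = M := by
    clear_value M
    clear hM
    induction M using Multiset.induction with
    | empty => exact ⟨0, by simp⟩
    | cons a s ih =>
      obtain ⟨R, hR⟩ := ih fun x hx => hr x (Multiset.mem_cons_of_mem hx)
      obtain ⟨y, hy⟩ := hr a (Multiset.mem_cons_self a s)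
      exact ⟨y ::ₘ R, by rw [Multiset.map_cons, hR, hy]⟩
  obtain ⟨R, hR⟩ := hexR
  have hinj : Function.Injective ι := (ι : F →+* AlgebraicClosure (ZMod p)).injective
  refine ⟨R, ?_, ?_⟩
  · apply map_injective (ι : F →+* AlgebraicClosure (ZMod p)) hinj
    have hsp := IsAlgClosed.splits (P.map (algebraMap (ZMod p) (AlgebraicClosure (ZMod p))))
    have h1 := hsp.eq_prod_roots
    rw [Polynomial.map_map, Polynomial.map_mul, map_C, Polynomial.map_multiset_prod,
      Multiset.map_map]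
    have h2 : (ι : F →+* AlgebraicClosure (ZMod p)).comp (algebraMap (ZMod p) F) =
        algebraMap (ZMod p) (AlgebraicClosure (ZMod p)) := ι.comp_algebraMap
    rw [h2, h1, leadingCoeff_map, ← hM, ← hR, Multiset.map_map]
    congr 2
    · rw [← h2]; rfl
    · apply Multiset.map_congr rfl
      intro r _
      simp
  · intro b
    rw [← count_roots, ← hM, ← hR]
    exact (Multiset.count_map_eq_count' _ _ hinj _).symm

theorem prod_cmp {F : Type} [Field F] [DecidableEq F] (B : Finset F) (b γ : F) (D : ℕ)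
    (h1 h2 : F[X]) (hb : b ∈ B) (e1 : h1.eval b = γ) (e2 : ∀ r ∈ B, h2.eval r = 1)
    (e3 : ∀ r ∈ B, r ≠ b → h1.eval r = 1) (R : Multiset F) (hR : ∀ r ∈ R, r ∈ B) :
    (R.map fun r => (-1) ^ D * h1.eval r).prod =
      (R.map fun r => (-1) ^ D * h2.eval r).prod * γ ^ R.count b := by
  induction R using Multiset.induction with
  | empty => simp
  | cons a s ih =>
    have ih' := ih fun r hr => hR r (Multiset.mem_cons_of_mem hr)
    have ha := hR a (Multiset.mem_cons_self a s)
    rw [Multiset.map_cons, Multiset.prod_cons, Multiset.map_cons, Multiset.prod_cons, ih']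
    by_cases hab : a = b
    · subst hab
      rw [Multiset.count_cons_self, e1, e2 a ha, pow_succ]
      ring
    · rw [Multiset.count_cons_of_ne (Ne.symm hab), e3 a ha hab, e2 a ha]
      ring

theorem main : Pool.Agent.Helper39.FT.S_NRM := by
  classical
  intro p _ N hN hpN P Q S hP0 hQ0 hS0 hyp b
  obtain ⟨n, hn, hNn, hB⟩ := exists_n hN hpN ((P.map (algebraMap (ZMod p) (AlgebraicClosure (ZMod p)))).roots + (Q.map (algebraMap (ZMod p) (AlgebraicClosure (ZMod p)))).roots + (S.map (algebraMap (ZMod p) (AlgebraicClosure (ZMod p)))).roots +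
    {b}).toFinset
  have hpr : p.Prime := Fact.out
  have hB' : ∀ x ∈ (P.map (algebraMap (ZMod p) (AlgebraicClosure (ZMod p)))).roots + (Q.map (algebraMap (ZMod p) (AlgebraicClosure (ZMod p)))).roots + (S.map (algebraMap (ZMod p) (AlgebraicClosure (ZMod p)))).roots + {b}, x ^ p ^ n = x :=
    fun x hx => hB x (Multiset.mem_toFinset.2 hx)
  let F := GaloisField p n
  have hcard : Nat.card F = p ^ n := GaloisField.card p n hn.ne'
  have hfin : Finite F := Nat.finite_of_card_ne_zero (by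
    rw [hcard]
    exact pow_ne_zero _ hpr.ne_zero)
  have halg : Algebra.IsAlgebraic (ZMod p) F := by
    have : Module.Finite (ZMod p) F := Module.Finite.of_finite
    infer_instance
  let ι : F →ₐ[ZMod p] AlgebraicClosure (ZMod p) := IsAlgClosed.lift
  have hrng : ∀ x : AlgebraicClosure (ZMod p), x ^ p ^ n = x → ∃ y, ι y = x := fun x hx =>
    mem_range hn (ι : F →+* AlgebraicClosure (ZMod p)) hcard x hx
  obtain ⟨RP, hRP, cntP⟩ := split ι P fun x hx => hrng x (hB' x (by
    simp only [Multiset.mem_add]; exact Or.inl (Or.inl (Or.inl hx))))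
  obtain ⟨RQ, hRQ, cntQ⟩ := split ι Q fun x hx => hrng x (hB' x (by
    simp only [Multiset.mem_add]; exact Or.inl (Or.inl (Or.inr hx))))
  obtain ⟨RS, hRS, -⟩ := split ι S fun x hx => hrng x (hB' x (by
    simp only [Multiset.mem_add]; exact Or.inl (Or.inr hx)))
  obtain ⟨b', hb'⟩ := hrng b (hB' b (by
    simp only [Multiset.mem_add]; exact Or.inr (Multiset.mem_singleton_self b)))
  have lc : ∀ T : (ZMod p)[X], T ≠ 0 → algebraMap (ZMod p) F T.leadingCoeff ≠ 0 := by
    intro T hT
    rw [Ne, map_eq_zero]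
    exact leadingCoeff_ne_zero.2 hT
  rw [← hb', ← cntP, ← cntQ]
  -- the generator
  obtain ⟨γ, hγ⟩ := IsCyclic.exists_generator (α := Fˣ)
  have hord : orderOf γ = p ^ n - 1 := by
    rw [orderOf_eq_card_of_forall_mem_zpowers hγ, Nat.card_units, hcard]
  obtain ⟨h1, h2, m1, m2, hdeg, e1, e2, e3⟩ := two (RP + RQ + RS + {b'}).toFinset b' (γ : F)
    (by simp)
  set B := (RP + RQ + RS + {b'}).toFinset with hBdef
  have hbB : b' ∈ B := by simp [hBdef]
  have n1 : ∀ r ∈ B, h1.eval r ≠ 0 := by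
    intro r hr
    by_cases hrb : r = b'
    · rw [hrb, e1]
      exact γ.ne_zero
    · rw [e3 r hr hrb]
      exact one_ne_zero
  have n2 : ∀ r ∈ B, h2.eval r ≠ 0 := by
    intro r hr
    rw [e2 r hr]
    exact one_ne_zero
  have sP : ∀ r ∈ RP, r ∈ B := fun r hr => by simp [hBdef, hr]
  have sQ : ∀ r ∈ RQ, r ∈ B := fun r hr => by simp [hBdef, hr]
  have sS : ∀ r ∈ RS, r ∈ B := fun r hr => by simp [hBdef, hr]
  have A1 := all hn ι hcard hNn P Q S hyp _ _ _ RP RQ RS hRP hRQ hRS (lc P hP0) (lc S hS0) _ h1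
    le_rfl m1 (fun r hr => n1 r (sP r hr)) (fun r hr => n1 r (sS r hr))
  have A2 := all hn ι hcard hNn P Q S hyp _ _ _ RP RQ RS hRP hRQ hRS (lc P hP0) (lc S hS0) _ h2
    le_rfl m2 (fun r hr => n2 r (sP r hr)) (fun r hr => n2 r (sS r hr))
  have cmp : ∀ (c : F) (R : Multiset F), (∀ r ∈ R, r ∈ B) →
      Ph c R h1 = Ph c R h2 * (γ : F) ^ R.count b' := by
    intro c R hR
    unfold Ph
    rw [hdeg, prod_cmp B b' γ _ h1 h2 hbB e1 e2 e3 R hR]
    ring
  rw [cmp _ RP sP, cmp _ RQ sQ, mul_pow, mul_pow, A2] at A1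
  have hne : (Ph (algebraMap (ZMod p) F Q.leadingCoeff) RQ h2) ^ ((p ^ n - 1) / N) ≠ 0 :=
    pow_ne_zero _ (Ph_ne_zero _ _ _ (lc Q hQ0) fun r hr => n2 r (sQ r hr))
  have A3 := mul_left_cancel₀ hne A1
  rw [← pow_mul, ← pow_mul, ← Units.val_pow_eq_pow_val, ← Units.val_pow_eq_pow_val, Units.val_inj,
    pow_eq_pow_iff_modEq, hord] at A3
  obtain ⟨e, he⟩ := hNn
  have he0 : e ≠ 0 := by
    rintro rfl
    have h3 : 1 < p ^ n := Nat.one_lt_pow hn.ne' hpr.one_lt
    omega
  have A4 : RP.count b' ≡ RQ.count b' [MOD N] := by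
    rw [he, Nat.mul_div_cancel_left _ hN] at A3
    have A5 : e * RP.count b' ≡ e * RQ.count b' [MOD e * N] := by
      rw [mul_comm e, mul_comm e, mul_comm e]
      exact A3
    exact Nat.ModEq.mul_left_cancel' he0 A5
  have := (Nat.modEq_iff_dvd.1 A4.symm)
  exact this

end Pool.Agent.Helper4.FT
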